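import Pool.Agent.Y808.LB.Stm2

/-!
# Residue fields of closed points (job LB-RFD)
-/

set_option autoImplicit false

open Polynomial IsLocalRing

namespace Pool.Agent.Y487.LB

open Pool.Agent.Y808.LB

theorem t_RFD : S_RFD := by
  intro V A _ _ _ _ hft q hq hV
  have hloc : IsLocalHom (algebraMap V (Localization.AtPrime q)) := by
    constructor
    intro v hv
    by_contra hnu
    have hm : v ∈ maximalIdeal V := (mem_maximalIdeal v).2 hnu
    have h1 := hV v hm
    have h2 : algebraMap A (Localization.AtPrime q) (algebraMap V A v) ∈
        maximalIdeal (Localization.AtPrime q) :=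
      (IsLocalization.AtPrime.to_map_mem_maximal_iff (Localization.AtPrime q) q _).2 h1
    rw [← IsScalarTower.algebraMap_apply] at h2
    exact (mem_maximalIdeal _).1 h2 hv
  refine ⟨hloc, ?_⟩
  have hsurj : Function.Surjective (algebraMap A (ResidueField (Localization.AtPrime q))) := by
    intro y
    obtain ⟨z, hz⟩ := (Ideal.bijective_algebraMap_quotient_residueField q).2 y
    obtain ⟨a, rfl⟩ := Ideal.Quotient.mk_surjective z
    exact ⟨a, hz⟩
  have hVft : Algebra.FiniteType V (ResidueField (Localization.AtPrime q)) :=
    Algebra.FiniteType.of_surjective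
      (IsScalarTower.toAlgHom V A (ResidueField (Localization.AtPrime q))) hsurj
  have hft2 : Algebra.FiniteType (ResidueField V) (ResidueField (Localization.AtPrime q)) :=
    Algebra.FiniteType.of_restrictScalars_finiteType V _ _
  exact finite_of_finite_type_of_isJacobsonRing _ _

end Pool.Agent.Y487.LB
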